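import Pool.Agent.Results.MP_3edc48_gt.MinSizeNonM

/-!
# The least cardinality of a topological space `X` with `C_p(X)` not kappa-Frechet

The least cardinality of a nonmeagre set of reals is the least cardinality of a set of reals,
of a Tychonoff space, and of any topological space `X` for which `C_p(X)` is not kappa-Frechet;
below it `C_p(X)` has a selective form of the kappa-Frechet property.
-/

set_option autoImplicit false

open Set Filter Topology
open Pool.Agent.Results.MP_3edc48_gt.MinSizeNonM (ConvergesTo OmegaAt GammaAt KappaFrechet nonM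
  selection nonM_mem not_kappaFrechet)

namespace Pool.Agent.Results.MP_3edc48_gt.AllSpaces

/-- The space of continuous real functions on the topological space `X`, with the topology of
pointwise convergence. -/
abbrev CpS (X : Type) [TopologicalSpace X] : Type := {f : X → ℝ // Continuous f}

section basics

variable {X : Type} [TopologicalSpace X]

lemma mem_nhds_cps {f : CpS X} {U : Set (CpS X)} (hU : U ∈ 𝓝 f) :
    ∃ (F : Finset X) (ε : ℝ), 0 < ε ∧ ∀ g : CpS X, (∀ x ∈ F, |g.1 x - f.1 x| < ε) → g ∈ U := by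
  classical
  rw [nhds_subtype_eq_comap, Filter.mem_comap] at hU
  obtain ⟨V, hV, hVU⟩ := hU
  rw [nhds_pi, Filter.mem_pi] at hV
  obtain ⟨I, hI, t, ht, htV⟩ := hV
  have h1 : ∀ x : X, ∃ ε > 0, ∀ r : ℝ, |r - f.1 x| < ε → r ∈ t x := by
    intro x
    obtain ⟨ε, hε, hb⟩ := Metric.mem_nhds_iff.1 (ht x)
    exact ⟨ε, hε, fun r hr => hb (by rwa [Metric.mem_ball, Real.dist_eq])⟩
  choose ε hε0 hε using h1
  by_cases hne : hI.toFinset.Nonempty
  · obtain ⟨x0, -, hmin⟩ := Finset.exists_min_image hI.toFinset ε hne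
    refine ⟨hI.toFinset, ε x0, hε0 x0, fun g hg => hVU (htV ?_)⟩
    intro x hx
    exact hε x _ (lt_of_lt_of_le (hg x (hI.mem_toFinset.2 hx)) (hmin x (hI.mem_toFinset.2 hx)))
  · refine ⟨∅, 1, one_pos, fun g _ => hVU (htV ?_)⟩
    intro x hx
    exact absurd ⟨x, hI.mem_toFinset.2 hx⟩ hne

lemma nhds_cps (f : CpS X) (F : Finset X) {ε : ℝ} (hε : 0 < ε) :
    {g : CpS X | ∀ x ∈ F, |g.1 x - f.1 x| < ε} ∈ 𝓝 f := by
  have h : {g : CpS X | ∀ x ∈ F, |g.1 x - f.1 x| < ε} =
      ⋂ x ∈ F, (fun g : CpS X => g.1 x) ⁻¹' (Metric.ball (f.1 x) ε) := by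
    ext g
    simp [Real.dist_eq]
  rw [h, Filter.biInter_finset_mem]
  intro x _
  apply ((continuous_apply x).comp continuous_subtype_val).continuousAt.preimage_mem_nhds
  exact Metric.ball_mem_nhds _ hε

lemma tendsto_cps {u : ℕ → CpS X} {f : CpS X}
    (h : ∀ x, Tendsto (fun n => (u n).1 x) atTop (𝓝 (f.1 x))) : Tendsto u atTop (𝓝 f) := by
  rw [tendsto_subtype_rng, tendsto_pi_nhds]
  exact h

/-- a sequence in `A` converging to a point outside `A` gives a member of `GammaAt`. -/
lemma exists_gamma' {A : Set (CpS X)} {f : CpS X} (hf : f ∉ A) {u : ℕ → CpS X}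
    (huA : ∀ n, u n ∈ A) (hu : Tendsto u atTop (𝓝 f)) : ∃ B ∈ GammaAt f, B ⊆ A := by
  have hinf : (range u).Infinite := by
    intro hfin
    have := hfin.isClosed.mem_of_tendsto hu (Eventually.of_forall fun n => mem_range_self n)
    obtain ⟨n, hn⟩ := this
    exact hf (hn ▸ huA n)
  refine ⟨range u, ⟨?_, hinf, ?_, ?_⟩, ?_⟩
  · exact le_antisymm (Cardinal.le_aleph0_iff_set_countable.2 (countable_range u))
      (Cardinal.infinite_iff.1 hinf.to_subtype)
  · rintro ⟨n, hn⟩
    exact hf (hn ▸ huA n)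
  · intro U hU
    have := hu hU
    rw [mem_map, mem_atTop_sets] at this
    obtain ⟨N, hN⟩ := this
    refine ((Finset.range N).finite_toSet.image u).subset ?_
    rintro _ ⟨⟨n, rfl⟩, hn⟩
    refine ⟨n, ?_, rfl⟩
    rw [Finset.mem_coe, Finset.mem_range]
    by_contra! hcon
    exact hn (hN n hcon)
  · rintro _ ⟨n, rfl⟩
    exact huA n

end basics

section bump

variable {S : Type} [MetricSpace S]

/-- A bump function equal to one on a finite set and zero away from it. -/
noncomputable def bmp (A : Finset S) (δ : ℝ) (x : S) : ℝ :=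
  1 - ∏ a ∈ A, min 1 (dist x a / δ)

lemma continuous_bmp (A : Finset S) (δ : ℝ) : Continuous (bmp A δ) := by
  unfold bmp
  refine continuous_const.sub (continuous_finsetProd _ fun a _ => ?_)
  exact continuous_const.min ((continuous_id.dist continuous_const).div_const _)

lemma bmp_eq_one {A : Finset S} {δ : ℝ} {x : S} (hx : x ∈ A) : bmp A δ x = 1 := by
  unfold bmp
  rw [Finset.prod_eq_zero hx (by simp)]
  simp

lemma bmp_eq_zero {A : Finset S} {δ : ℝ} (hδ : 0 < δ) {x : S}
    (hx : ∀ a ∈ A, δ ≤ dist x a) : bmp A δ x = 0 := by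
  unfold bmp
  rw [Finset.prod_eq_one]
  · simp
  · intro a ha
    rw [min_eq_left]
    rw [le_div_iff₀ hδ, one_mul]
    exact hx a ha

end bump

/-- The selection principle for finite sets, pulled back from a metrizable quotient: the
functions `bb k` are one on the new part of `F k` and tend to zero in a strong sense. -/
theorem pull {X : Type} [TopologicalSpace X] (hX : Cardinal.mk X < nonM)
    (E F : ℕ → Finset X) (hEm : Monotone E) (hEF : ∀ n, F n ⊆ E (n + 1)) (f : ℕ → X → ℝ)
    (hf : ∀ n, Continuous (f n)) :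
    ∃ (κ : ℕ → ℕ) (bb : ℕ → X → ℝ), StrictMono κ ∧ (∀ k, Continuous (bb k)) ∧
      (∀ k, ∀ x ∈ F (κ k), bb k x = 1 ∨ ∃ e ∈ E (κ k), ∀ n, f n x = f n e) ∧
      ∀ x, ∀ᶠ k in atTop, bb k x = 0 := by
  classical
  let ψ : X → ℕ → ℝ := fun x n => f n x
  have hψ : Continuous ψ := continuous_pi hf
  let _ : MetricSpace (range ψ) := TopologicalSpace.metrizableSpaceMetric (range ψ)
  let p : X → range ψ := fun x => ⟨ψ x, x, rfl⟩
  have hpc : Continuous p := hψ.subtype_mk _
  have hp : ∀ x y, p x = p y → ∀ n, f n x = f n y := by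
    intro x y h n
    exact congrFun (congrArg Subtype.val h) n
  let D : ℕ → Finset (range ψ) := fun n => (F n).image p \ (E n).image p
  have hD : Pairwise (fun m n => Disjoint (D m) (D n)) := by
    have : ∀ m n, m < n → Disjoint (D m) (D n) := by
      intro m n hmn
      rw [Finset.disjoint_left]
      intro s hs hs'
      obtain ⟨x, hx, rfl⟩ := Finset.mem_image.1 (Finset.mem_sdiff.1 hs).1
      exact (Finset.mem_sdiff.1 hs').2
        (Finset.mem_image_of_mem p (hEm (Nat.succ_le_of_lt hmn) (hEF m hx)))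
    intro m n hmn
    rcases lt_or_gt_of_ne hmn with h' | h'
    · exact this m n h'
    · exact (this n m h').symm
  have hcard : Cardinal.mk (range ψ) < nonM := Cardinal.mk_range_le.trans_lt hX
  obtain ⟨κ, hκ, δ, hδ, hsel⟩ := selection hcard D hD
  refine ⟨κ, fun k x => bmp (D (κ k)) (δ k) (p x), hκ, fun k => (continuous_bmp _ _).comp hpc,
    fun k x hx => ?_, fun x => ?_⟩
  · by_cases h : p x ∈ (E (κ k)).image p
    · obtain ⟨e, he, hpe⟩ := Finset.mem_image.1 h
      exact Or.inr ⟨e, he, hp x e hpe.symm⟩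
    · exact Or.inl (bmp_eq_one (Finset.mem_sdiff.2 ⟨Finset.mem_image_of_mem p hx, h⟩))
  · filter_upwards [hsel (p x)] with k hk
    exact bmp_eq_zero (hδ k) hk

/-- The selective kappa-Frechet property of `C_p(X)` for small `X`. -/
theorem strong {X : Type} [TopologicalSpace X] (hX : Cardinal.mk X < nonM)
    (U : ℕ → Set (CpS X)) (f : CpS X) (hU : ∀ n, IsOpen (U n) ∧ f ∈ closure (U n)) :
    ∃ (m : ℕ → ℕ) (g : ℕ → CpS X), StrictMono m ∧ (∀ k, g k ∈ U (m k)) ∧
      Tendsto g atTop (𝓝 f) := by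
  classical
  have key : ∀ (E : Finset X) (n : ℕ), ∃ (h : CpS X) (F : Finset X),
      (∀ x ∈ E, |h.1 x - f.1 x| < 1 / ((n : ℝ) + 1)) ∧
      ∀ g : CpS X, (∀ x ∈ F, g.1 x = h.1 x) → g ∈ U n := by
    intro E n
    obtain ⟨h, hh1, hh2⟩ := mem_closure_iff_nhds.1 (hU n).2 _
      (nhds_cps f E (ε := 1 / ((n : ℝ) + 1)) (by positivity))
    obtain ⟨F, ε, hε, hF⟩ := mem_nhds_cps ((hU n).1.mem_nhds hh2)
    refine ⟨h, F, hh1, fun g hg => hF g (fun x hx => ?_)⟩
    rw [hg x hx]
    simpa using hε
  choose h F hh hF using key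
  let E : ℕ → Finset X := fun n => Nat.rec ∅ (fun k a => a ∪ F a k) n
  have hE : ∀ n, E (n + 1) = E n ∪ F (E n) n := fun n => rfl
  have hEm : Monotone E := monotone_nat_of_le_succ (fun n => by rw [hE]; exact Finset.subset_union_left)
  obtain ⟨κ, bb, hκ, hbc, hb1, hb0⟩ := pull hX E (fun n => F (E n) n) hEm
    (fun n => by rw [hE]; exact Finset.subset_union_right)
    (fun n x => (h (E n) n).1 x - f.1 x) (fun n => (h (E n) n).2.sub f.2)
  -- the modified functions
  let η : ℕ → ℝ := fun k => 1 / ((κ k : ℝ) + 1)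
  have hη : ∀ k, 0 < η k := fun k => by positivity
  let v : ℕ → X → ℝ := fun k x => (h (E (κ k)) (κ k)).1 x - f.1 x
  let c : ℕ → X → ℝ := fun k x => max (-(η k)) (min (η k) (v k x))
  let w : ℕ → X → ℝ := fun k x => f.1 x + (c k x + bb k x * (v k x - c k x))
  have hvc : ∀ k, Continuous (v k) := fun k => (h (E (κ k)) (κ k)).2.sub f.2
  have hcc : ∀ k, Continuous (c k) := fun k =>
    continuous_const.max (continuous_const.min (hvc k))
  have hwc : ∀ k, Continuous (w k) := fun k =>
    f.2.add ((hcc k).add ((hbc k).mul ((hvc k).sub (hcc k))))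
  have hcabs : ∀ k x, |c k x| ≤ η k := by
    intro k x
    have := (hη k).le
    rw [abs_le]
    exact ⟨le_max_left _ _, max_le (by linarith) (min_le_left _ _)⟩
  refine ⟨κ, fun k => ⟨w k, hwc k⟩, hκ, fun k => ?_, ?_⟩
  · apply hF (E (κ k)) (κ k)
    intro x hx
    rcases hb1 k x hx with h1 | ⟨e, he, h1⟩
    · simp only [w, h1, v]
      ring
    · have h2 : |v k x| < η k := by
        have h3 : v k x = v k e := h1 (κ k)
        rw [h3]
        exact hh (E (κ k)) (κ k) e he
      have h3 : c k x = v k x := by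
        rw [abs_lt] at h2
        simp only [c]
        rw [min_eq_right h2.2.le, max_eq_right h2.1.le]
      simp only [w, h3, v]
      ring
  · apply tendsto_cps
    intro x
    have h1 : ∀ᶠ k in atTop, |w k x - f.1 x| ≤ η k := by
      filter_upwards [hb0 x] with k hk
      have h3 : w k x - f.1 x = c k x := by
        simp only [w, hk]
        ring
      rw [h3]
      exact hcabs k x
    have h2 : Tendsto η atTop (𝓝 0) :=
      tendsto_one_div_add_atTop_nhds_zero_nat.comp hκ.tendsto_atTop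
    have h3 : Tendsto (fun k => w k x - f.1 x) atTop (𝓝 0) := by
      rw [tendsto_zero_iff_abs_tendsto_zero]
      exact squeeze_zero' (Eventually.of_forall fun k => abs_nonneg _) h1 h2
    have h4 := h3.add_const (f.1 x)
    simpa using h4

theorem kappaFrechet_of_small {X : Type} [TopologicalSpace X] (hX : Cardinal.mk X < nonM) :
    KappaFrechet (CpS X) := by
  rintro f A ⟨hf1, hf2⟩ hAo
  obtain ⟨m, g, -, hg, ht⟩ := strong hX (fun _ => A) f (fun _ => ⟨hAo, hf1⟩)
  exact exists_gamma' hf2 hg ht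

/-- (1) If the topological space `X` has fewer points than the least nonmeagre set of reals, then
for every sequence of open sets of `C_p(X)` with a common point `f` of their closures some
selection from a subsequence converges to `f`; in particular (2) `C_p(X)` is kappa-Frechet.
(3) For nonmeagre sets of reals `C_p(X)` is not kappa-Frechet. So the least cardinality of a
nonmeagre set of reals is the least cardinality (4) of a set of reals, (5) of a Tychonoff space
and (6) of a topological space `X` for which `C_p(X)` is not kappa-Frechet. -/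
theorem result :
    (∀ (X : Type) [TopologicalSpace X], Cardinal.mk X < nonM →
      ∀ (U : ℕ → Set (CpS X)) (f : CpS X), (∀ n, IsOpen (U n) ∧ f ∈ closure (U n)) →
        ∃ (m : ℕ → ℕ) (g : ℕ → CpS X), StrictMono m ∧ (∀ k, g k ∈ U (m k)) ∧
          Tendsto g atTop (𝓝 f)) ∧
    (∀ (X : Type) [TopologicalSpace X], Cardinal.mk X < nonM → KappaFrechet (CpS X)) ∧
    (∀ X : Set ℝ, ¬ IsMeagre X → ¬ KappaFrechet (CpS X)) ∧
    IsLeast {c : Cardinal.{0} | ∃ X : Set ℝ, Cardinal.mk X = c ∧ ¬ KappaFrechet (CpS X)} nonM ∧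
    IsLeast {c : Cardinal.{0} | ∃ (X : Type) (_ : TopologicalSpace X) (_ : T35Space X),
      Cardinal.mk X = c ∧ ¬ KappaFrechet (CpS X)} nonM ∧
    IsLeast {c : Cardinal.{0} | ∃ (X : Type) (_ : TopologicalSpace X),
      Cardinal.mk X = c ∧ ¬ KappaFrechet (CpS X)} nonM := by
  have h1 : ∀ (X : Type) [TopologicalSpace X], ¬ KappaFrechet (CpS X) → nonM ≤ Cardinal.mk X := by
    intro X _ hX
    by_contra! hlt
    exact hX (kappaFrechet_of_small hlt)
  obtain ⟨X0, hX0, hm⟩ := nonM_mem
  have h2 : ¬ KappaFrechet (CpS X0) := not_kappaFrechet hm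
  refine ⟨fun X _ hX U f hU => strong hX U f hU, fun X _ hX => kappaFrechet_of_small hX,
    fun X hX => not_kappaFrechet hX, ⟨⟨X0, hX0, h2⟩, ?_⟩,
    ⟨⟨X0, inferInstance, inferInstance, hX0, h2⟩, ?_⟩, ⟨⟨X0, inferInstance, hX0, h2⟩, ?_⟩⟩
  · rintro c ⟨X, rfl, hX⟩
    exact h1 X hX
  · rintro c ⟨X, _, _, rfl, hX⟩
    exact h1 X hX
  · rintro c ⟨X, _, rfl, hX⟩
    exact h1 X hX

end Pool.Agent.Results.MP_3edc48_gt.AllSpaces
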